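import Pool.Agent.helper32.EB.Defs2
import Pool.Agent.helper29.BT.PA

/-! # bt:PD oscillation of planar Brownian motion (chaining) -/

set_option autoImplicit false

open MeasureTheory ProbabilityTheory Filter Topology
open scoped ENNReal NNReal

namespace Pool.Agent.helper32.EB

lemma PD_law1 {Ω : Type*} [MeasurableSpace Ω] {P : Measure Ω} {B : ℝ≥0 → Ω → ℝ}
    (hB : IsBrownianReal B P) (s δ : ℝ≥0) :
    P.map (fun ω => √2 * (B (s + δ) ω - B s ω)) = gaussianReal 0 (2 * δ) := by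
  have h1 := hB.toIsPreBrownianReal.hasLaw_sub (s + δ) s
  have h2 := gaussianReal_const_mul h1 (√2)
  have e1 : nndist ((s + δ : ℝ≥0) : ℝ) ((s : ℝ≥0) : ℝ) = δ := by
    apply NNReal.eq
    rw [coe_nndist, Real.dist_eq]
    push_cast
    rw [show (s : ℝ) + (δ : ℝ) - s = δ by ring, abs_of_nonneg (NNReal.coe_nonneg δ)]
  have e2 : (NNReal.mk (√2 ^ 2) (sq_nonneg _) : ℝ≥0) = 2 := by
    apply NNReal.eq
    simp
  have e3 : gaussianReal (√2 * 0) (NNReal.mk (√2 ^ 2) (sq_nonneg _) *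
      nndist ((s + δ : ℝ≥0) : ℝ) ((s : ℝ≥0) : ℝ)) =
      gaussianReal 0 (2 * δ) := by
    rw [e1, e2, mul_zero]
  rw [← e3]
  exact h2.map_eq

lemma PD_law {Ω : Type*} [MeasurableSpace Ω] {P : Measure Ω} {B₁ B₂ : ℝ≥0 → Ω → ℝ}
    (hB : IsBM2 P B₁ B₂) (s δ : ℝ≥0) :
    P.map (fun ω => bm B₁ B₂ (s + δ) ω - bm B₁ B₂ s ω) = gauss2 δ := by
  have hP := hB.prob
  have m1 : Measurable (fun ω => √2 * (B₁ (s + δ) ω - B₁ s ω)) :=
    ((hB.meas1 _).sub (hB.meas1 _)).const_mul _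
  have m2 : Measurable (fun ω => √2 * (B₂ (s + δ) ω - B₂ s ω)) :=
    ((hB.meas2 _).sub (hB.meas2 _)).const_mul _
  have hi : IndepFun (fun ω => √2 * (B₁ (s + δ) ω - B₁ s ω))
      (fun ω => √2 * (B₂ (s + δ) ω - B₂ s ω)) P :=
    hB.indep.comp (φ := fun u : ℝ≥0 → ℝ => √2 * (u (s + δ) - u s))
      (ψ := fun u : ℝ≥0 → ℝ => √2 * (u (s + δ) - u s)) (by fun_prop) (by fun_prop)
  have l3 : P.map (fun ω => (√2 * (B₁ (s + δ) ω - B₁ s ω), √2 * (B₂ (s + δ) ω - B₂ s ω))) =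
      (gaussianReal 0 (2 * δ)).prod (gaussianReal 0 (2 * δ)) := by
    have := (indepFun_iff_map_prod_eq_prod_map_map m1.aemeasurable m2.aemeasurable).1 hi
    rw [this, PD_law1 hB.bm1, PD_law1 hB.bm2]
  have mk : Measurable (fun p : ℝ × ℝ => (⟨p.1, p.2⟩ : ℂ)) :=
    Complex.measurableEquivRealProd.symm.measurable
  rw [gauss2, ← l3, Measure.map_map mk (m1.prodMk m2)]
  congr 1
  funext ω
  apply Complex.ext
  · simp [bm, mul_sub]
  · simp [bm, mul_sub]

lemma PD_meas {Ω : Type*} [MeasurableSpace Ω] {P : Measure Ω} {B₁ B₂ : ℝ≥0 → Ω → ℝ}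
    (hB : IsBM2 P B₁ B₂) (s : ℝ≥0) : Measurable (bm B₁ B₂ s) := by
  have mk : Measurable (fun p : ℝ × ℝ => (⟨p.1, p.2⟩ : ℂ)) :=
    Complex.measurableEquivRealProd.symm.measurable
  exact mk.comp (((hB.meas1 s).const_mul (√2)).prodMk ((hB.meas2 s).const_mul (√2)))

lemma PD_incr {Ω : Type*} [MeasurableSpace Ω] {P : Measure Ω} {B₁ B₂ : ℝ≥0 → Ω → ℝ}
    (hB : IsBM2 P B₁ B₂) (s t δ : ℝ≥0) (ht : t = s + δ) (hδ : 0 < δ) (h : ℝ) (hh : 0 ≤ h) :
    P {ω | h ≤ ‖bm B₁ B₂ t ω - bm B₁ B₂ s ω‖} ≤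
      ENNReal.ofReal (Real.exp (-h ^ 2 / (4 * δ))) := by
  subst ht
  refine le_trans (le_of_eq ?_) (gauss2_tail δ hδ h hh)
  have hm : Measurable (fun ω => bm B₁ B₂ (s + δ) ω - bm B₁ B₂ s ω) :=
    (PD_meas hB _).sub (PD_meas hB _)
  rw [← PD_law hB s δ, Measure.map_apply hm (measurableSet_le measurable_const measurable_norm)]
  rfl

lemma PD_grid (f : ℝ≥0 → ℂ) (h0 : f 0 = 0) (δ : ℝ≥0) (a : ℝ)
    (H : ∀ j : ℕ, ∀ i : ℕ, i < 2 ^ j →
      ‖f (((i : ℝ≥0) + 1) * (δ / 2 ^ j)) - f ((i : ℝ≥0) * (δ / 2 ^ j))‖ ≤ a / 4 * (3 / 4) ^ j) :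
    ∀ n : ℕ, ∀ i : ℕ, i ≤ 2 ^ n → ‖f ((i : ℝ≥0) * (δ / 2 ^ n))‖ ≤ a * (1 - (3 / 4) ^ (n + 1)) := by
  have ha : 0 ≤ a := by
    have := le_trans (norm_nonneg _) (H 0 0 (by norm_num))
    simp at this
    linarith
  intro n
  induction n with
  | zero =>
    intro i hi
    have hi' : i = 0 ∨ i = 1 := by
      simp at hi
      omega
    rcases hi' with rfl | rfl
    · simp only [Nat.cast_zero, zero_mul, h0, norm_zero]
      norm_num
      linarith
    · have := H 0 0 (by norm_num)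
      simp only [Nat.cast_zero, zero_mul, h0, sub_zero, zero_add, pow_zero] at this
      simp only [Nat.cast_one, pow_zero]
      norm_num at this ⊢
      linarith
  | succ n ih =>
    intro i hi
    have e : ∀ k : ℕ, (((2 * k : ℕ) : ℝ≥0) * (δ / 2 ^ (n + 1))) = (k : ℝ≥0) * (δ / 2 ^ n) := by
      intro k
      push_cast
      rw [pow_succ]
      field_simp
    have hmono : a * (1 - (3 / 4 : ℝ) ^ (n + 1)) + a / 4 * (3 / 4 : ℝ) ^ (n + 1) =
        a * (1 - (3 / 4 : ℝ) ^ (n + 1 + 1)) := by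
      rw [pow_succ (3 / 4 : ℝ) (n + 1)]
      ring
    have hpos : 0 ≤ a / 4 * (3 / 4 : ℝ) ^ (n + 1) := by positivity
    rcases Nat.even_or_odd' i with ⟨k, rfl | rfl⟩
    · rw [e k]
      have := ih k (by rw [pow_succ] at hi; omega)
      linarith
    · have h1 := ih k (by rw [pow_succ] at hi; omega)
      have h2 := H (n + 1) (2 * k) (by omega)
      rw [e k] at h2
      have h3 : ((2 * k + 1 : ℕ) : ℝ≥0) = ((2 * k : ℕ) : ℝ≥0) + 1 := by push_cast; ring
      rw [h3]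
      have h4 := norm_add_le (f ((((2 * k : ℕ) : ℝ≥0) + 1) * (δ / 2 ^ (n + 1))) -
        f ((k : ℝ≥0) * (δ / 2 ^ n))) (f ((k : ℝ≥0) * (δ / 2 ^ n)))
      rw [sub_add_cancel] at h4
      linarith

lemma PD_det (f : ℝ≥0 → ℂ) (hf : Continuous f) (h0 : f 0 = 0) (δ : ℝ≥0) (hδ : 0 < δ) (a : ℝ)
    (H : ∀ j : ℕ, ∀ i : ℕ, i < 2 ^ j →
      ‖f (((i : ℝ≥0) + 1) * (δ / 2 ^ j)) - f ((i : ℝ≥0) * (δ / 2 ^ j))‖ ≤ a / 4 * (3 / 4) ^ j)
    (t : ℝ≥0) (ht : t ≤ δ) : ‖f t‖ ≤ a := by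
  have hg := PD_grid f h0 δ a H
  have ha : 0 ≤ a := by
    have := le_trans (norm_nonneg _) (H 0 0 (by norm_num))
    simp at this
    linarith
  let u : ℕ → ℝ≥0 := fun n => (⌊t * 2 ^ n / δ⌋₊ : ℝ≥0) * (δ / 2 ^ n)
  have hu1 : ∀ n, ‖f (u n)‖ ≤ a := by
    intro n
    have hle : ⌊t * 2 ^ n / δ⌋₊ ≤ 2 ^ n := by
      apply Nat.floor_le_of_le
      rw [div_le_iff₀ hδ]
      push_cast
      rw [mul_comm]
      exact mul_le_mul_right ht _
    have := hg n _ hle
    have h2 : a * (1 - (3 / 4 : ℝ) ^ (n + 1)) ≤ a := by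
      have : 0 ≤ a * (3 / 4 : ℝ) ^ (n + 1) := by positivity
      linarith
    exact this.trans h2
  have hu2 : Tendsto u atTop (𝓝 t) := by
    have hpow : Tendsto (fun n : ℕ => (δ : ℝ≥0) / 2 ^ n) atTop (𝓝 0) := by
      have h1 : Tendsto (fun n : ℕ => ((1 / 2 : ℝ≥0)) ^ n) atTop (𝓝 0) := by
        apply NNReal.tendsto_pow_atTop_nhds_zero_of_lt_one
        rw [← NNReal.coe_lt_coe]
        push_cast
        norm_num
      have h2 := h1.const_mul δ
      rw [mul_zero] at h2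
      refine h2.congr ?_
      intro n
      rw [one_div, inv_pow]
      rfl
    have hup : ∀ n, u n ≤ t := by
      intro n
      have h1 : (⌊t * 2 ^ n / δ⌋₊ : ℝ≥0) ≤ t * 2 ^ n / δ := Nat.floor_le (by positivity)
      calc u n ≤ (t * 2 ^ n / δ) * (δ / 2 ^ n) := mul_le_mul_left h1 _
        _ = t := by field_simp
    have hlow : ∀ n, t ≤ u n + δ / 2 ^ n := by
      intro n
      have h1 : t * 2 ^ n / δ ≤ (⌊t * 2 ^ n / δ⌋₊ : ℝ≥0) + 1 := (Nat.lt_floor_add_one _).le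
      calc t = (t * 2 ^ n / δ) * (δ / 2 ^ n) := by field_simp
        _ ≤ ((⌊t * 2 ^ n / δ⌋₊ : ℝ≥0) + 1) * (δ / 2 ^ n) := mul_le_mul_left h1 _
        _ = u n + δ / 2 ^ n := by rw [add_mul, one_mul]
    have hlow' : ∀ n, t - δ / 2 ^ n ≤ u n := fun n => tsub_le_iff_right.2 (hlow n)
    have hlim : Tendsto (fun n : ℕ => t - δ / 2 ^ n) atTop (𝓝 t) := by
      have := (tendsto_const_nhds (x := t)).sub hpow
      simpa using this
    exact tendsto_of_tendsto_of_tendsto_of_le_of_le hlim tendsto_const_nhds hlow' hup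
  have h3 : Tendsto (fun n => ‖f (u n)‖) atTop (𝓝 ‖f t‖) :=
    ((continuous_norm.comp hf).tendsto t).comp hu2
  exact le_of_tendsto' h3 hu1

lemma PD_term (b : ℝ) (hb : 16 ≤ b) (j : ℕ) :
    (2 : ℝ) ^ j * Real.exp (-(b * (9 / 8) ^ j)) ≤ Real.exp (-b) * (1 / 2) ^ j := by
  have h1 : 1 + (j : ℝ) * (1 / 8) ≤ (9 / 8 : ℝ) ^ j := by
    have := one_add_mul_le_pow (a := (1 / 8 : ℝ)) (by norm_num) j
    norm_num at this ⊢
    exact this
  have h2 : Real.exp (-(b * (9 / 8) ^ j)) ≤ Real.exp (-b) * (Real.exp (-(b / 8))) ^ j := by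
    rw [← Real.exp_nat_mul, ← Real.exp_add]
    apply Real.exp_le_exp.2
    nlinarith
  have h3 : Real.exp (-(b / 8)) ≤ 1 / 4 := by
    have h4 : (4 : ℝ) ≤ Real.exp (b / 8) := by
      have h5 : Real.exp 2 ≤ Real.exp (b / 8) := Real.exp_le_exp.2 (by linarith)
      have h6 : (4 : ℝ) ≤ Real.exp 2 := by
        have := Real.add_one_le_exp (1 : ℝ)
        have h7 : Real.exp 2 = Real.exp 1 * Real.exp 1 := by rw [← Real.exp_add]; norm_num
        rw [h7]
        nlinarith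
      linarith
    rw [Real.exp_neg, one_div]
    exact inv_anti₀ (by norm_num) h4
  calc (2 : ℝ) ^ j * Real.exp (-(b * (9 / 8) ^ j))
      ≤ 2 ^ j * (Real.exp (-b) * (Real.exp (-(b / 8))) ^ j) := by gcongr
    _ ≤ 2 ^ j * (Real.exp (-b) * (1 / 4) ^ j) := by
        gcongr
    _ = Real.exp (-b) * (1 / 2) ^ j := by
        rw [mul_left_comm, ← mul_pow]
        norm_num

theorem bm_osc {Ω : Type*} [MeasurableSpace Ω] {P : Measure Ω} {B₁ B₂ : ℝ≥0 → Ω → ℝ}
    (hB : IsBM2 P B₁ B₂) (t0 δ : ℝ≥0) (hδ : 0 < δ) (a : ℝ) (ha : 0 < a) :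
    P {ω | ∃ t : ℝ≥0, t ≤ δ ∧ a < ‖bm B₁ B₂ (t0 + t) ω - bm B₁ B₂ t0 ω‖} ≤
      ENNReal.ofReal (1000 * Real.exp (-a ^ 2 / (1000 * δ))) := by
  have hP := hB.prob
  have hδ' : (0 : ℝ) < δ := hδ
  set b : ℝ := a ^ 2 / (64 * δ) with hb
  have hbx : -a ^ 2 / (1000 * δ) = -(64 / 1000 * b) := by
    rw [hb]; field_simp
  rw [hbx]
  by_cases hb16 : b < 16
  · refine prob_le_one.trans ?_
    rw [ENNReal.one_le_ofReal]
    have h1 : Real.exp (-2) ≤ Real.exp (-(64 / 1000 * b)) := Real.exp_le_exp.2 (by linarith)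
    have h2 : (1 / 1000 : ℝ) ≤ Real.exp (-2) := by
      have h3 : Real.exp 2 ≤ 1000 := by
        have h4 := Real.exp_one_lt_d9
        have h7 : Real.exp 2 = Real.exp 1 * Real.exp 1 := by rw [← Real.exp_add]; norm_num
        rw [h7]
        nlinarith [Real.exp_pos 1]
      rw [Real.exp_neg, one_div]
      exact inv_anti₀ (Real.exp_pos _) h3
    linarith
  · push Not at hb16
    let N : Set Ω := {ω | ¬ (Continuous (fun t => B₁ t ω) ∧ Continuous (fun t => B₂ t ω))}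
    have hN : P N = 0 := by
      have := hB.bm1.cont.and hB.bm2.cont
      rw [← MeasureTheory.ae_iff]
      filter_upwards [this] with ω hω
      exact hω
    let A : ℕ → ℕ → Set Ω := fun j i => {ω | a / 4 * (3 / 4) ^ j ≤
      ‖bm B₁ B₂ (t0 + ((i : ℝ≥0) + 1) * (δ / 2 ^ j)) ω -
        bm B₁ B₂ (t0 + (i : ℝ≥0) * (δ / 2 ^ j)) ω‖}
    have hsub : {ω | ∃ t : ℝ≥0, t ≤ δ ∧ a < ‖bm B₁ B₂ (t0 + t) ω - bm B₁ B₂ t0 ω‖} ⊆
        N ∪ ⋃ j, ⋃ i ∈ Finset.range (2 ^ j), A j i := by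
      intro ω hω
      by_contra hno
      simp only [Set.mem_union, Set.mem_iUnion, Finset.mem_range, not_or, not_exists] at hno
      obtain ⟨hno1, hno2⟩ := hno
      obtain ⟨c1, c2⟩ : Continuous (fun t => B₁ t ω) ∧ Continuous (fun t => B₂ t ω) := by
        by_contra hc
        exact hno1 hc
      obtain ⟨t, ht, hat⟩ := hω
      have hcont : Continuous (fun t => bm B₁ B₂ (t0 + t) ω - bm B₁ B₂ t0 ω) := by
        refine Continuous.sub ?_ continuous_const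
        have h1 : (fun t => bm B₁ B₂ (t0 + t) ω) =
            fun t => ((√2 * B₁ (t0 + t) ω : ℝ) : ℂ) + ((√2 * B₂ (t0 + t) ω : ℝ) : ℂ) * Complex.I := by
          funext t
          apply Complex.ext <;> simp [bm]
        rw [h1]
        have k1 : Continuous (fun t : ℝ≥0 => B₁ (t0 + t) ω) := c1.comp (continuous_const.add continuous_id)
        have k2 : Continuous (fun t : ℝ≥0 => B₂ (t0 + t) ω) := c2.comp (continuous_const.add continuous_id)
        exact (Complex.continuous_ofReal.comp (k1.const_mul _)).add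
          ((Complex.continuous_ofReal.comp (k2.const_mul _)).mul continuous_const)
      have := PD_det (fun t => bm B₁ B₂ (t0 + t) ω - bm B₁ B₂ t0 ω) hcont (by simp) δ hδ a
        (by
          intro j i hi
          have h2 := hno2 j i hi
          simp only [A, Set.mem_ofPred_eq, not_le] at h2
          rw [sub_sub_sub_cancel_right]
          exact h2.le) t ht
      exact absurd hat (not_lt.2 this)
    have hA : ∀ j i, P (A j i) ≤ ENNReal.ofReal (Real.exp (-(b * (9 / 8) ^ j))) := by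
      intro j i
      have hδj : 0 < δ / 2 ^ j := by positivity
      have h1 := PD_incr hB (t0 + (i : ℝ≥0) * (δ / 2 ^ j)) (t0 + ((i : ℝ≥0) + 1) * (δ / 2 ^ j))
        (δ / 2 ^ j) (by ring) hδj (a / 4 * (3 / 4) ^ j) (by positivity)
      refine h1.trans (le_of_eq ?_)
      congr 2
      rw [hb]
      push_cast
      have e1 : (9 / 8 : ℝ) ^ j = ((3 / 4) ^ j) ^ 2 * 2 ^ j := by
        rw [← pow_mul, mul_comm j 2, pow_mul, ← mul_pow]
        norm_num
      rw [e1]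
      field_simp
      ring
    calc P {ω | ∃ t : ℝ≥0, t ≤ δ ∧ a < ‖bm B₁ B₂ (t0 + t) ω - bm B₁ B₂ t0 ω‖}
        ≤ P (N ∪ ⋃ j, ⋃ i ∈ Finset.range (2 ^ j), A j i) := measure_mono hsub
      _ ≤ P N + P (⋃ j, ⋃ i ∈ Finset.range (2 ^ j), A j i) := measure_union_le _ _
      _ = P (⋃ j, ⋃ i ∈ Finset.range (2 ^ j), A j i) := by rw [hN, zero_add]
      _ ≤ ∑' j, P (⋃ i ∈ Finset.range (2 ^ j), A j i) := measure_iUnion_le _
      _ ≤ ∑' j : ℕ, ENNReal.ofReal (Real.exp (-b) * (1 / 2) ^ j) := by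
          refine ENNReal.tsum_le_tsum fun j => ?_
          calc P (⋃ i ∈ Finset.range (2 ^ j), A j i) ≤ ∑ i ∈ Finset.range (2 ^ j), P (A j i) :=
                measure_biUnion_finset_le _ _
            _ ≤ ∑ i ∈ Finset.range (2 ^ j), ENNReal.ofReal (Real.exp (-(b * (9 / 8) ^ j))) :=
                Finset.sum_le_sum fun i _ => hA j i
            _ = ENNReal.ofReal (2 ^ j * Real.exp (-(b * (9 / 8) ^ j))) := by
                rw [Finset.sum_const, Finset.card_range, nsmul_eq_mul,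
                  ENNReal.ofReal_mul (by positivity)]
                congr 1
                rw [ENNReal.ofReal_pow (by norm_num)]
                simp
            _ ≤ _ := ENNReal.ofReal_le_ofReal (PD_term b hb16 j)
      _ = ENNReal.ofReal (∑' j : ℕ, Real.exp (-b) * (1 / 2) ^ j) := by
          rw [ENNReal.ofReal_tsum_of_nonneg (fun j => by positivity)]
          exact (summable_geometric_two).mul_left _
      _ = ENNReal.ofReal (2 * Real.exp (-b)) := by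
          rw [tsum_mul_left, tsum_geometric_two]
          ring_nf
      _ ≤ ENNReal.ofReal (1000 * Real.exp (-(64 / 1000 * b))) := by
          apply ENNReal.ofReal_le_ofReal
          have : Real.exp (-b) ≤ Real.exp (-(64 / 1000 * b)) := Real.exp_le_exp.2 (by linarith)
          have h0 := Real.exp_pos (-(64 / 1000 * b))
          linarith

end Pool.Agent.helper32.EB
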